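import Mathlib

set_option autoImplicit false

/-! A theorem of Haxell: systems of pairwise disjoint representatives of families of small sets. -/

namespace Pool.Agent.H563.DJ

open Finset

variable {ι α : Type} [DecidableEq ι] [DecidableEq α]

/-- a system of pairwise disjoint representatives -/
def Mat (E : ι → Finset α → Prop) (X : Finset ι) (f : ι → Finset α) : Prop :=
  (∀ x ∈ X, E x (f x)) ∧ ∀ x ∈ X, ∀ y ∈ X, x ≠ y → Disjoint (f x) (f y)

/-- the indices whose representatives meet the `i`-th set -/
def TT (X : Finset ι) (f : ι → Finset α) (e : ℕ → Finset α) (i : ℕ) : Finset ι := X.filter (fun x => ¬ Disjoint (f x) (e i))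

/-- the indices met before the step `i` -/
def hit (X : Finset ι) (f : ι → Finset α) (e : ℕ → Finset α) (i : ℕ) : Finset ι := (range i).biUnion (TT X f e)

/-- the points used before the step `i` -/
def UU (X : Finset ι) (f : ι → Finset α) (e : ℕ → Finset α) (i : ℕ) : Finset α :=
  (range i).biUnion e ∪ (hit X f e i).biUnion f

/-- valid sequences -/
def Val (E : ι → Finset α → Prop) (X : Finset ι) (x₀ : ι) (f : ι → Finset α) (e : ℕ → Finset α) (j : ℕ) : Prop :=
  ∀ i < j, (∃ x ∈ insert x₀ (hit X f e i), E x (e i)) ∧ Disjoint (e i) (UU X f e i)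

lemma mem_TT (X : Finset ι) (f : ι → Finset α) (e : ℕ → Finset α) (i : ℕ) (x : ι) :
    x ∈ TT X f e i ↔ x ∈ X ∧ ¬ Disjoint (f x) (e i) := by
  unfold TT
  rw [mem_filter]

lemma mem_hit (X : Finset ι) (f : ι → Finset α) (e : ℕ → Finset α) (i : ℕ) (x : ι) :
    x ∈ hit X f e i ↔ ∃ l < i, x ∈ TT X f e l := by
  unfold hit
  rw [mem_biUnion]
  simp only [mem_range]

lemma sub_UU_e (X : Finset ι) (f : ι → Finset α) (e : ℕ → Finset α) (i l : ℕ) (h : l < i) : e l ⊆ UU X f e i := by
  unfold UU
  intro a ha
  exact mem_union_left _ (mem_biUnion.2 ⟨l, mem_range.2 h, ha⟩)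

lemma sub_UU_f (X : Finset ι) (f : ι → Finset α) (e : ℕ → Finset α) (i : ℕ) (x : ι) (h : x ∈ hit X f e i) :
    f x ⊆ UU X f e i := by
  unfold UU
  intro a ha
  exact mem_union_right _ (mem_biUnion.2 ⟨x, h, ha⟩)

/-- an index is met once only -/
lemma once (E : ι → Finset α → Prop) (X : Finset ι) (x₀ : ι) (f : ι → Finset α) (e : ℕ → Finset α) (j : ℕ)
    (hV : Val E X x₀ f e j) (k l : ℕ) (hkl : k < l) (hl : l < j) (x : ι) (hx : x ∈ TT X f e k) : x ∉ TT X f e l := by
  intro h
  have h1 : x ∈ hit X f e l := (mem_hit X f e l x).2 ⟨k, hkl, hx⟩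
  have h2 := sub_UU_f X f e l x h1
  have h3 := (hV l hl).2
  exact ((mem_TT X f e l x).1 h).2 (disjoint_of_subset_left h2 h3.symm)

/-- the potential -/
def pot (r M : ℕ) (X : Finset ι) (f : ι → Finset α) (e : ℕ → Finset α) (j : ℕ) : ℕ :=
  ∑ i ∈ range j, (TT X f e i).card * (r + 2) ^ (M - 1 - i) + (r + 2) ^ (M - j)

lemma aug (E : ι → Finset α → Prop) (r : ℕ) (hr : ∀ x e, E x e → e.card ≤ r) (I : Finset ι)
    (h : ∀ S ⊆ I, S.Nonempty → ∀ U : Finset α, U.card ≤ 2 * r * (S.card - 1) → ∃ x ∈ S, ∃ e, E x e ∧ Disjoint e U)
    (X : Finset ι) (hX : X ⊆ I) (x₀ : ι) (hx₀ : x₀ ∈ I) (hx₀X : x₀ ∉ X) :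
    ∀ n : ℕ, ∀ (f : ι → Finset α) (e : ℕ → Finset α) (j : ℕ), Mat E X f → Val E X x₀ f e j → j ≤ X.card + 1 →
      pot r (X.card + 1) X f e j = n → ∃ g, Mat E (insert x₀ X) g := by
  intro n
  induction n using Nat.strong_induction_on with
  | _ n IH =>
    intro f e j hM hV hj hn
    by_cases hA : ∃ i < j, TT X f e i = ∅
    · obtain ⟨i, hij, hi⟩ := hA
      obtain ⟨⟨x, hx, hE⟩, hd⟩ := hV i hij
      have hdis : ∀ y ∈ X, Disjoint (f y) (e i) := by
        intro y hy
        by_contra hcon
        have : y ∈ TT X f e i := (mem_TT X f e i y).2 ⟨hy, hcon⟩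
        rw [hi] at this
        exact absurd this (notMem_empty y)
      rw [mem_insert] at hx
      rcases hx with rfl | hx
      · refine ⟨Function.update f x (e i), ?_, ?_⟩
        · intro y hy
          rw [mem_insert] at hy
          rcases hy with rfl | hy
          · rw [Function.update_self]; exact hE
          · have hne : y ≠ x := fun h => hx₀X (h ▸ hy)
            rw [Function.update_of_ne hne]
            exact hM.1 y hy
        · intro y hy z hz hyz
          rw [mem_insert] at hy hz
          rcases hy with rfl | hy
          · rcases hz with rfl | hz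
            · exact absurd rfl hyz
            · rw [Function.update_self, Function.update_of_ne (Ne.symm hyz)]
              exact (hdis z hz).symm
          · have hne : y ≠ x := fun h => hx₀X (h ▸ hy)
            rcases hz with rfl | hz
            · rw [Function.update_self, Function.update_of_ne hne]
              exact hdis y hy
            · have hne' : z ≠ x := fun h => hx₀X (h ▸ hz)
              rw [Function.update_of_ne hne, Function.update_of_ne hne']
              exact hM.2 y hy z hz hyz
      · obtain ⟨l, hli, hxl⟩ := (mem_hit X f e i x).1 hx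
        have hxX : x ∈ X := ((mem_TT X f e l x).1 hxl).1
        have hlj : l < j := by omega
        obtain ⟨f', hf'⟩ : ∃ f', f' = Function.update f x (e i) := ⟨_, rfl⟩
        have hf'x : f' x = e i := by rw [hf', Function.update_self]
        have hf'y : ∀ y, y ≠ x → f' y = f y := fun y hy => by rw [hf', Function.update_of_ne hy]
        have hM' : Mat E X f' := by
          refine ⟨?_, ?_⟩
          · intro y hy
            by_cases hyx : y = x
            · rw [hyx, hf'x]; exact hE
            · rw [hf'y y hyx]; exact hM.1 y hy
          · intro y hy z hz hyz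
            by_cases hyx : y = x
            · have hzx : z ≠ x := fun h => hyz (hyx.trans h.symm)
              rw [hyx, hf'x, hf'y z hzx]
              exact (hdis z hz).symm
            · by_cases hzx : z = x
              · rw [hzx, hf'x, hf'y y hyx]
                exact hdis y hy
              · rw [hf'y y hyx, hf'y z hzx]
                exact hM.2 y hy z hz hyz
        have hxk : ∀ k < l, x ∉ TT X f e k := fun k hk hx' => once E X x₀ f e j hV k l hk hlj x hx' hxl
        have hxk' : ∀ k ≤ l, x ∉ TT X f' e k := by
          intro k hk hx'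
          apply ((mem_TT X f' e k x).1 hx').2
          rw [hf'x]
          exact disjoint_of_subset_right (sub_UU_e X f e i k (by omega)) hd
        have hTer : ∀ k ≤ l, TT X f' e k = (TT X f e k).erase x := by
          intro k hk
          ext y
          rw [mem_erase]
          by_cases hyx : y = x
          · constructor
            · intro h'
              rw [hyx] at h'
              exact absurd h' (hxk' k hk)
            · intro h'
              exact absurd hyx h'.1
          · rw [mem_TT, mem_TT, hf'y y hyx]
            exact ⟨fun h' => ⟨hyx, h'⟩, fun h' => h'.2⟩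
        have hTsame : ∀ k < l, TT X f' e k = TT X f e k := by
          intro k hk
          rw [hTer k hk.le, erase_eq_of_notMem (hxk k hk)]
        have hhit : ∀ k ≤ l, hit X f' e k = hit X f e k := by
          intro k hk
          ext y
          rw [mem_hit, mem_hit]
          constructor
          · rintro ⟨m, hm, h'⟩
            exact ⟨m, hm, by rw [← hTsame m (by omega)]; exact h'⟩
          · rintro ⟨m, hm, h'⟩
            exact ⟨m, hm, by rw [hTsame m (by omega)]; exact h'⟩
        have hUU : ∀ k ≤ l, UU X f' e k = UU X f e k := by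
          intro k hk
          unfold UU
          rw [hhit k hk]
          congr 1
          apply biUnion_congr rfl
          intro y hy
          apply hf'y
          rintro rfl
          obtain ⟨m, hm, h'⟩ := (mem_hit X f e k y).1 hy
          exact hxk m (by omega) h'
        have hV' : Val E X x₀ f' e (l + 1) := by
          intro k hk
          rw [hhit k (by omega), hUU k (by omega)]
          exact hV k (by omega)
        refine IH (pot r (X.card + 1) X f' e (l + 1)) ?_ f' e (l + 1) hM' hV' (by omega) rfl
        rw [← hn]
        unfold pot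
        have e1 : ∑ k ∈ range (l + 1), (TT X f' e k).card * (r + 2) ^ (X.card + 1 - 1 - k) + (r + 2) ^ (X.card + 1 - (l + 1)) =
            ∑ k ∈ range (l + 1), (TT X f e k).card * (r + 2) ^ (X.card + 1 - 1 - k) := by
          rw [sum_range_succ, sum_range_succ, sum_congr rfl fun k hk => by rw [hTsame k (mem_range.1 hk)], hTer l le_rfl]
          have h1 : ((TT X f e l).erase x).card + 1 = (TT X f e l).card := card_erase_add_one hxl
          rw [← h1, show X.card + 1 - (l + 1) = X.card + 1 - 1 - l by omega]
          ring
        rw [e1]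
        have e2 : ∑ k ∈ range (l + 1), (TT X f e k).card * (r + 2) ^ (X.card + 1 - 1 - k) ≤
            ∑ k ∈ range j, (TT X f e k).card * (r + 2) ^ (X.card + 1 - 1 - k) :=
          sum_le_sum_of_subset (range_subset_range.2 (by omega))
        have e3 : 0 < (r + 2) ^ (X.card + 1 - j) := Nat.pow_pos (by omega)
        omega
    · push Not at hA
      have hTpos : ∀ i < j, 1 ≤ (TT X f e i).card := fun i hi => card_pos.2 (nonempty_iff_ne_empty.2 (fun h' => by
        have := hA i hi
        rw [h'] at this
        simp at this))
      have hpd : ∀ k ∈ range j, ∀ l ∈ range j, k ≠ l → Disjoint (TT X f e k) (TT X f e l) := by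
        intro k hk l hl hkl
        rw [mem_range] at hk hl
        rw [disjoint_left]
        intro x hx hx'
        rcases lt_or_gt_of_ne hkl with h' | h'
        · exact once E X x₀ f e j hV k l h' hl x hx hx'
        · exact once E X x₀ f e j hV l k h' hk x hx' hx
      have hcard : (hit X f e j).card = ∑ i ∈ range j, (TT X f e i).card := by
        unfold hit
        exact card_biUnion hpd
      have hjh : j ≤ (hit X f e j).card := by
        rw [hcard]
        calc j = ∑ _i ∈ range j, 1 := by simp
          _ ≤ _ := sum_le_sum fun i hi => hTpos i (mem_range.1 hi)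
      have hhX : hit X f e j ⊆ X := by
        intro x hx
        obtain ⟨l, _, h'⟩ := (mem_hit X f e j x).1 hx
        exact ((mem_TT X f e l x).1 h').1
      have hjX : j ≤ X.card := hjh.trans (card_le_card hhX)
      have hUc : (UU X f e j).card ≤ 2 * r * (hit X f e j).card := by
        unfold UU
        refine (card_union_le _ _).trans ?_
        have h1 : ((range j).biUnion e).card ≤ r * j := by
          refine card_biUnion_le.trans ?_
          calc ∑ i ∈ range j, (e i).card ≤ ∑ _i ∈ range j, r := sum_le_sum fun i hi => by
                obtain ⟨⟨x, _, hE⟩, _⟩ := hV i (mem_range.1 hi)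
                exact hr x _ hE
            _ = r * j := by rw [sum_const, card_range, smul_eq_mul, mul_comm]
        have h2 : ((hit X f e j).biUnion f).card ≤ r * (hit X f e j).card := by
          refine card_biUnion_le.trans ?_
          calc ∑ x ∈ hit X f e j, (f x).card ≤ ∑ _x ∈ hit X f e j, r := sum_le_sum fun x hx => hr x _ (hM.1 x (hhX hx))
            _ = r * (hit X f e j).card := by rw [sum_const, smul_eq_mul, mul_comm]
        have h3 : r * j ≤ r * (hit X f e j).card := Nat.mul_le_mul_left r hjh
        calc ((range j).biUnion e).card + ((hit X f e j).biUnion f).card ≤ r * (hit X f e j).card + r * (hit X f e j).card := by omega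
          _ = _ := by ring
      have hx₀h : x₀ ∉ hit X f e j := fun h' => hx₀X (hhX h')
      have hSc : (insert x₀ (hit X f e j)).card = (hit X f e j).card + 1 := card_insert_of_notMem hx₀h
      obtain ⟨x, hxS, e', hE', hd'⟩ := h (insert x₀ (hit X f e j)) (by
        intro y hy
        rw [mem_insert] at hy
        rcases hy with rfl | hy
        · exact hx₀
        · exact hX (hhX hy)) ⟨x₀, mem_insert_self _ _⟩ (UU X f e j) (by rw [hSc, Nat.add_sub_cancel]; exact hUc)
      obtain ⟨e₂, he₂⟩ : ∃ e₂, e₂ = Function.update e j e' := ⟨_, rfl⟩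
      have he₂j : e₂ j = e' := by rw [he₂, Function.update_self]
      have he₂i : ∀ i, i < j → e₂ i = e i := fun i hi => by rw [he₂, Function.update_of_ne (by omega)]
      have hT₂ : ∀ i < j, TT X f e₂ i = TT X f e i := by
        intro i hi
        unfold TT
        rw [he₂i i hi]
      have hh₂ : ∀ i ≤ j, hit X f e₂ i = hit X f e i := by
        intro i hi
        unfold hit
        exact biUnion_congr rfl fun k hk => hT₂ k (by have := mem_range.1 hk; omega)
      have hU₂ : ∀ i ≤ j, UU X f e₂ i = UU X f e i := by
        intro i hi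
        unfold UU
        rw [hh₂ i hi]
        congr 1
        exact biUnion_congr rfl fun k hk => he₂i k (by have := mem_range.1 hk; omega)
      have hV₂ : Val E X x₀ f e₂ (j + 1) := by
        intro i hi
        rcases Nat.lt_or_ge i j with h' | h'
        · rw [hh₂ i h'.le, hU₂ i h'.le, he₂i i h']
          exact hV i h'
        · have hij : i = j := by omega
          subst hij
          rw [hh₂ i le_rfl, hU₂ i le_rfl, he₂j]
          exact ⟨⟨x, hxS, hE'⟩, hd'⟩
      refine IH (pot r (X.card + 1) X f e₂ (j + 1)) ?_ f e₂ (j + 1) hM hV₂ (by omega) rfl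
      rw [← hn]
      unfold pot
      rw [sum_range_succ, sum_congr rfl fun k hk => by rw [hT₂ k (mem_range.1 hk)]]
      have hTj : (TT X f e₂ j).card ≤ r := by
        have h1 : (TT X f e₂ j).card ≤ ∑ y ∈ TT X f e₂ j, (f y ∩ e').card := by
          calc (TT X f e₂ j).card = ∑ _y ∈ TT X f e₂ j, 1 := by simp
            _ ≤ _ := sum_le_sum fun y hy => by
                have h2 := ((mem_TT X f e₂ j y).1 hy).2
                rw [he₂j, disjoint_iff_inter_eq_empty] at h2
                exact card_pos.2 (nonempty_iff_ne_empty.2 h2)
        have h2 : ∑ y ∈ TT X f e₂ j, (f y ∩ e').card = ((TT X f e₂ j).biUnion (fun y => f y ∩ e')).card := by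
          symm
          apply card_biUnion
          intro y hy z hz hyz
          have hy' := ((mem_TT X f e₂ j y).1 hy).1
          have hz' := ((mem_TT X f e₂ j z).1 hz).1
          exact disjoint_of_subset_left inter_subset_left (disjoint_of_subset_right inter_subset_left (hM.2 y hy' z hz' hyz))
        have h3 : (TT X f e₂ j).biUnion (fun y => f y ∩ e') ⊆ e' := by
          intro a ha
          obtain ⟨y, _, h4⟩ := mem_biUnion.1 ha
          exact (mem_inter.1 h4).2
        have h4 := card_le_card h3
        have h5 := hr x e' hE'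
        omega
      have e1 : (r + 2) ^ (X.card + 1 - j) = (r + 2) * (r + 2) ^ (X.card + 1 - 1 - j) := by
        rw [show X.card + 1 - j = (X.card + 1 - 1 - j) + 1 by omega, pow_succ]
        ring
      have e2 : X.card + 1 - (j + 1) = X.card + 1 - 1 - j := by omega
      rw [e1, e2]
      have e3 : 0 < (r + 2) ^ (X.card + 1 - 1 - j) := Nat.pow_pos (by omega)
      have e4 : (TT X f e₂ j).card * (r + 2) ^ (X.card + 1 - 1 - j) ≤ r * (r + 2) ^ (X.card + 1 - 1 - j) :=
        Nat.mul_le_mul_right _ hTj
      have e5 : (r + 2) * (r + 2) ^ (X.card + 1 - 1 - j) = r * (r + 2) ^ (X.card + 1 - 1 - j) + 2 * (r + 2) ^ (X.card + 1 - 1 - j) := by ring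
      omega

/-- **Haxell's theorem** (with a slightly weaker constant). -/
theorem haxell (E : ι → Finset α → Prop) (r : ℕ) (hr : ∀ x e, E x e → e.card ≤ r) (I : Finset ι)
    (h : ∀ S ⊆ I, S.Nonempty → ∀ U : Finset α, U.card ≤ 2 * r * (S.card - 1) → ∃ x ∈ S, ∃ e, E x e ∧ Disjoint e U) :
    ∃ f, Mat E I f := by
  have key : ∀ X : Finset ι, X ⊆ I → ∃ f, Mat E X f := by
    intro X
    induction X using Finset.induction_on with
    | empty => exact fun _ => ⟨fun _ => ∅, by simp, by simp⟩
    | insert x₀ X hx₀ ih =>
      intro hX
      obtain ⟨f, hf⟩ := ih (fun y hy => hX (mem_insert_of_mem hy))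
      exact aug E r hr I h X (fun y hy => hX (mem_insert_of_mem hy)) x₀ (hX (mem_insert_self _ _)) hx₀ _ f (fun _ => ∅) 0 hf
        (fun i hi => absurd hi (Nat.not_lt_zero i)) (Nat.zero_le _) rfl
  exact key I (Subset.refl I)

end Pool.Agent.H563.DJ
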