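import Mathlib

set_option autoImplicit false

/-! Two inequalities for real numbers. -/

namespace Pool.Agent.H563.DJ

lemma real_up (c₁ C₁ : ℝ) (hc₁ : 0 < c₁) (hC₁ : 0 < C₁) : ∃ c : ℝ, 0 < c ∧ c ≤ 1 ∧ ∃ L₀ : ℝ, ∀ L : ℝ, L₀ ≤ L → ∀ X t b : ℝ,
    1 ≤ t → 1 ≤ b → 0 < X → t ≤ c * X / L ^ 2 → t * b ≤ c * X / (L * Real.log (Real.log (t * L))) →
    C₁ * ((4 * t * b * L / X) * L + X * Real.exp (- Real.exp (c₁ / (4 * t * b * L / X)))) < b := by
  obtain ⟨K, hK⟩ : ∃ K : ℝ, K = |Real.log (8 * C₁ / c₁)| := ⟨_, rfl⟩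
  have hK0 : 0 ≤ K := by rw [hK]; exact abs_nonneg _
  refine ⟨min 1 (min (1 / (16 * C₁)) (c₁ / 8)), by positivity, min_le_left _ _, Real.exp (Real.exp 1 + K + 5), ?_⟩
  intro L hL X t b ht hb hX h1 h2
  obtain ⟨c, hc⟩ : ∃ c, c = min 1 (min (1 / (16 * C₁)) (c₁ / 8)) := ⟨_, rfl⟩
  rw [← hc] at h1 h2
  have hc0 : 0 < c := by rw [hc]; positivity
  have hcC : c ≤ 1 / (16 * C₁) := by rw [hc]; exact (min_le_right _ _).trans (min_le_left _ _)
  have hcc : c ≤ c₁ / 8 := by rw [hc]; exact (min_le_right _ _).trans (min_le_right _ _)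
  have hL0 : 0 < L := lt_of_lt_of_le (Real.exp_pos _) hL
  have ht0 : 0 < t := by linarith
  have hb0 : 0 < b := by linarith
  have htL : L ≤ t * L := by nlinarith
  have htL0 : 0 < t * L := by positivity
  obtain ⟨v, hv⟩ : ∃ v, v = Real.log (t * L) := ⟨_, rfl⟩
  have hvlow : Real.exp 1 + K + 5 ≤ v := by
    rw [hv, Real.le_log_iff_exp_le htL0]
    exact hL.trans htL
  have he1 := Real.exp_pos 1
  have hv0 : 0 < v := by linarith
  obtain ⟨Y, hY⟩ : ∃ Y, Y = Real.log v := ⟨_, rfl⟩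
  have hY1 : 1 ≤ Y := by
    rw [hY, Real.le_log_iff_exp_le hv0]
    linarith
  rw [← hv, ← hY] at h2
  -- the first term
  have hterm1 : C₁ * ((4 * t * b * L / X) * L) ≤ b / 4 := by
    have h3 : t * L ^ 2 ≤ c * X := by rwa [le_div_iff₀ (by positivity)] at h1
    have h4 : C₁ * ((4 * t * b * L / X) * L) = 4 * C₁ * b * (t * L ^ 2 / X) := by ring
    have h5 : t * L ^ 2 / X ≤ c := by rwa [div_le_iff₀ hX]
    rw [h4]
    calc 4 * C₁ * b * (t * L ^ 2 / X) ≤ 4 * C₁ * b * (1 / (16 * C₁)) := by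
          apply mul_le_mul_of_nonneg_left (h5.trans hcC) (by positivity)
      _ = b / 4 := by field_simp; norm_num
  -- the exponent
  obtain ⟨u, hu⟩ : ∃ u, u = c₁ / (4 * t * b * L / X) := ⟨_, rfl⟩
  have hXe : X = 4 * t * b * L * u / c₁ := by
    rw [hu]; field_simp
  have hu2 : 2 * Y ≤ u := by
    rw [le_div_iff₀ (by positivity)] at h2
    rw [hu, le_div_iff₀ (by positivity), mul_div_assoc', div_le_iff₀ hX]
    have h3 : 2 * Y * (4 * t * b * L) = 8 * (t * b * (L * Y)) := by ring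
    rw [h3]
    have h4 : 8 * (c * X) ≤ c₁ * X := by nlinarith
    linarith
  have hu0 : 0 < u := by linarith
  obtain ⟨a, ha⟩ : ∃ a, a = Real.exp (u / 2) := ⟨_, rfl⟩
  have ha2 : Real.exp u = a ^ 2 := by
    rw [ha, ← Real.exp_nat_mul]; congr 1; push_cast; ring
  have hva : v ≤ a := by
    have h3 : v = Real.exp Y := by rw [hY, Real.exp_log hv0]
    rw [h3, ha]
    exact Real.exp_le_exp.2 (by linarith)
  have haK : K + 5 ≤ a := by linarith
  have hua : u ≤ 2 * a := by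
    have h3 := Real.add_one_le_exp (u / 2)
    rw [← ha] at h3
    linarith
  have hprod : 8 * C₁ / c₁ * (t * L) * u < Real.exp (a ^ 2) := by
    have h3 : 8 * C₁ / c₁ ≤ Real.exp K := by
      rw [hK]
      have h4 : 8 * C₁ / c₁ = Real.exp (Real.log (8 * C₁ / c₁)) := (Real.exp_log (by positivity)).symm
      conv_lhs => rw [h4]
      exact Real.exp_le_exp.2 (le_abs_self _)
    have h5 : t * L ≤ Real.exp a := by
      have h6 : t * L = Real.exp v := by rw [hv, Real.exp_log htL0]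
      rw [h6]
      exact Real.exp_le_exp.2 hva
    have h7 : u ≤ Real.exp (2 * a) := by
      have := Real.add_one_le_exp (2 * a)
      linarith
    calc 8 * C₁ / c₁ * (t * L) * u ≤ Real.exp K * Real.exp a * Real.exp (2 * a) := by
          apply mul_le_mul _ h7 hu0.le (by positivity)
          exact mul_le_mul h3 h5 htL0.le (by positivity)
      _ = Real.exp (K + a + 2 * a) := by rw [Real.exp_add, Real.exp_add]
      _ < Real.exp (a ^ 2) := by
          apply Real.exp_lt_exp.2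
          nlinarith
  have hterm2 : C₁ * (X * Real.exp (- Real.exp u)) < b / 2 := by
    rw [ha2, Real.exp_neg]
    have h3 : C₁ * X = b / 2 * (8 * C₁ / c₁ * (t * L) * u) := by
      conv_lhs => rw [hXe]
      field_simp
      ring
    have h4 : 0 < Real.exp (a ^ 2) := Real.exp_pos _
    rw [← mul_assoc, h3, mul_assoc]
    have h5 : 8 * C₁ / c₁ * (t * L) * u * (Real.exp (a ^ 2))⁻¹ < 1 := by
      rw [← div_eq_mul_inv, div_lt_one h4]
      exact hprod
    nlinarith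
  rw [← hu, mul_add]
  linarith

lemma real_low (c₂ C₂ : ℝ) (hc₂ : 0 < c₂) (hC₂ : 0 < C₂) : ∃ L₀ : ℝ, ∀ L : ℝ, L₀ ≤ L → ∀ X t : ℝ,
    1 ≤ t → t ≤ X / L ^ 2 → X = Real.exp L → ∃ ρ : ℝ, 0 < ρ ∧ C₂ / L ≤ ρ ∧ ρ ≤ 1 ∧
      ρ * (X / L) + t ≤ (2 * C₂ + 1) * X / (L * Real.log (Real.log (t * L))) ∧
      ρ * (X / L) / t + 1 ≤ c₂ * (ρ * L + X * Real.exp (- Real.exp (C₂ / ρ))) := by
  obtain ⟨K, hK⟩ : ∃ K : ℝ, K = |Real.log (2 / c₂)| + 3 + Real.exp (2 * C₂ + 1) := ⟨_, rfl⟩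
  have hK3 : 3 ≤ K := by
    rw [hK]
    have := abs_nonneg (Real.log (2 / c₂))
    have := Real.exp_pos (2 * C₂ + 1)
    linarith
  refine ⟨Real.exp (K ^ 2), ?_⟩
  intro L hL X t ht h1 hX
  have hL0 : 0 < L := lt_of_lt_of_le (Real.exp_pos _) hL
  have hL1 : 1 ≤ L := by
    refine le_trans ?_ hL
    exact Real.one_le_exp (by positivity)
  have ht0 : 0 < t := by linarith
  have htL : L ≤ t * L := by nlinarith
  have htL0 : 0 < t * L := by positivity
  have hX0 : 0 < X := by rw [hX]; exact Real.exp_pos _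
  have htX : t * L ≤ X := by
    rw [le_div_iff₀ (by positivity)] at h1
    nlinarith
  obtain ⟨v, hv⟩ : ∃ v, v = Real.log (t * L) := ⟨_, rfl⟩
  have hvlow : K ^ 2 ≤ v := by
    rw [hv, Real.le_log_iff_exp_le htL0]
    exact hL.trans htL
  have hvL : v ≤ L := by
    rw [hv, Real.log_le_iff_le_exp htL0, ← hX]
    exact htX
  have hv0 : 0 < v := by nlinarith
  obtain ⟨Y, hY⟩ : ∃ Y, Y = Real.log v := ⟨_, rfl⟩
  rw [← hv, ← hY]
  obtain ⟨s, hs⟩ : ∃ s, s = Real.exp (Y / 2) := ⟨_, rfl⟩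
  have hs2 : s ^ 2 = v := by
    rw [hs, ← Real.exp_nat_mul]
    have : ((2 : ℕ) : ℝ) * (Y / 2) = Y := by push_cast; ring
    rw [this, hY, Real.exp_log hv0]
  have hs0 : 0 < s := by rw [hs]; exact Real.exp_pos _
  have hsK : K ≤ s := by
    by_contra hcon
    push Not at hcon
    nlinarith
  have hY2 : 2 * C₂ + 1 ≤ Y / 2 := by
    have h2 : Real.exp (2 * C₂ + 1) ≤ s := by
      have := abs_nonneg (Real.log (2 / c₂))
      linarith
    rw [hs] at h2
    exact Real.exp_le_exp.1 h2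
  have hY0 : 0 < Y := by linarith
  have hYv : Y ≤ v := by
    rw [hY]
    have := Real.log_le_sub_one_of_pos hv0
    linarith
  refine ⟨2 * C₂ / Y, by positivity, ?_, ?_, ?_, ?_⟩
  · rw [div_le_div_iff₀ hL0 hY0]
    nlinarith
  · rw [div_le_one hY0]
    linarith
  · have h2 : t ≤ X / (L * Y) := by
      refine h1.trans ?_
      apply div_le_div_of_nonneg_left hX0.le (by positivity)
      rw [sq]
      exact mul_le_mul_of_nonneg_left (hYv.trans hvL) hL0.le
    calc 2 * C₂ / Y * (X / L) + t ≤ 2 * C₂ / Y * (X / L) + X / (L * Y) := by linarith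
      _ = _ := by field_simp
  · have e1 : C₂ / (2 * C₂ / Y) = Y / 2 := by field_simp
    rw [e1, ← hs]
    have h2 : 2 * C₂ / Y * (X / L) / t ≤ X * Real.exp (-(s ^ 2)) := by
      have h3 : Real.exp (-(s ^ 2)) = 1 / (t * L) := by
        rw [hs2, hv, Real.exp_neg, Real.exp_log htL0, one_div]
      rw [h3]
      have h4 : 2 * C₂ / Y ≤ 1 := by rw [div_le_one hY0]; linarith
      calc 2 * C₂ / Y * (X / L) / t = 2 * C₂ / Y * (X * (1 / (t * L))) := by field_simp
        _ ≤ 1 * (X * (1 / (t * L))) := mul_le_mul_of_nonneg_right h4 (by positivity)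
        _ = _ := one_mul _
    have h5 : 1 ≤ X * Real.exp (-(s ^ 2)) := by
      have h3 : Real.exp (-(s ^ 2)) = 1 / (t * L) := by
        rw [hs2, hv, Real.exp_neg, Real.exp_log htL0, one_div]
      rw [h3, mul_one_div, le_div_iff₀ htL0, one_mul]
      exact htX
    have h6 : 2 * Real.exp (-(s ^ 2)) ≤ c₂ * Real.exp (-s) := by
      have h7 : 2 / c₂ ≤ Real.exp (s ^ 2 - s) := by
        have h8 : 2 / c₂ = Real.exp (Real.log (2 / c₂)) := (Real.exp_log (by positivity)).symm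
        rw [h8]
        apply Real.exp_le_exp.2
        have h9 := le_abs_self (Real.log (2 / c₂))
        have h10 : |Real.log (2 / c₂)| ≤ s := by
          have := Real.exp_pos (2 * C₂ + 1)
          linarith
        nlinarith
      rw [div_le_iff₀ hc₂] at h7
      have h8 : Real.exp (s ^ 2 - s) * Real.exp (-(s ^ 2)) = Real.exp (-s) := by
        rw [← Real.exp_add]; congr 1; ring
      have h9 := Real.exp_pos (-(s ^ 2))
      calc 2 * Real.exp (-(s ^ 2)) ≤ (Real.exp (s ^ 2 - s) * c₂) * Real.exp (-(s ^ 2)) := mul_le_mul_of_nonneg_right h7 h9.le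
        _ = c₂ * (Real.exp (s ^ 2 - s) * Real.exp (-(s ^ 2))) := by ring
        _ = _ := by rw [h8]
    have h7 : 0 ≤ c₂ * (2 * C₂ / Y * L) := by positivity
    calc 2 * C₂ / Y * (X / L) / t + 1 ≤ X * Real.exp (-(s ^ 2)) + X * Real.exp (-(s ^ 2)) := by linarith
      _ = X * (2 * Real.exp (-(s ^ 2))) := by ring
      _ ≤ X * (c₂ * Real.exp (-s)) := mul_le_mul_of_nonneg_left h6 hX0.le
      _ = c₂ * (X * Real.exp (-s)) := by ring
      _ ≤ c₂ * (2 * C₂ / Y * L + X * Real.exp (-s)) := by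
          rw [mul_add]; linarith

end Pool.Agent.H563.DJ
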